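import Pool.Agent.S07325
import Pool.Agent.V11186.SliceMain

/-!
All minimal slice rank decompositions of a tensor of slice rank `k` have their one-variable factors
in subspaces of bounded dimension.
-/

set_option autoImplicit false

namespace Pool.Agent.Results.MP_f1e34e_co.SliceBound

open Finset Module

/-- `(r, a, b)` is a slice rank decomposition of `T`. -/
def IsDec {F : Type} [Field F] {d : ℕ} {n : Fin d → ℕ} (T : (∀ j, Fin (n j)) → F)
    (r : Fin d → ℕ) (a : ∀ j, Fin (r j) → (Fin (n j) → F))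
    (b : ∀ j, Fin (r j) → ((∀ j' : {j' : Fin d // j' ≠ j}, Fin (n j'.1)) → F)) : Prop :=
  ∀ x, T x = ∑ j, ∑ i, a j i (x j) * b j i (fun j' => x j'.1)

/-- The slice rank: the least length of a slice rank decomposition. -/
noncomputable def sliceRank {F : Type} [Field F] {d : ℕ} {n : Fin d → ℕ}
    (T : (∀ j, Fin (n j)) → F) : ℕ :=
  sInf {k | ∃ (r : Fin d → ℕ) (a : ∀ j, Fin (r j) → (Fin (n j) → F))
    (b : ∀ j, Fin (r j) → ((∀ j' : {j' : Fin d // j' ≠ j}, Fin (n j'.1)) → F)),
    IsDec T r a b ∧ ∑ j, r j = k}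

/-- The partitions `{{j}, [d] \ {j}}`. -/
def RS (d : ℕ) : Set (Finpartition (Finset.univ : Finset (Fin d))) :=
  {P | ∃ j, P.parts = {{j}, {j}ᶜ}}

lemma compl_ne {d : ℕ} (hd : 2 ≤ d) (j : Fin d) : ({j}ᶜ : Finset (Fin d)) ≠ ∅ := by
  intro h
  have := Finset.card_compl ({j} : Finset (Fin d))
  rw [h, card_empty, card_singleton, Fintype.card_fin] at this
  omega

lemma single_ne_compl {d : ℕ} (j : Fin d) : ({j} : Finset (Fin d)) ≠ {j}ᶜ := by
  intro h
  have h1 : j ∈ ({j}ᶜ : Finset (Fin d)) := by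
    rw [← h]
    exact mem_singleton_self j
  rw [mem_compl] at h1
  exact h1 (mem_singleton_self j)

/-- The partition. -/
def part {d : ℕ} (hd : 2 ≤ d) (j : Fin d) : Finpartition (Finset.univ : Finset (Fin d)) where
  parts := {{j}, {j}ᶜ}
  supIndep := by
    rw [Finset.supIndep_pair (single_ne_compl j)]
    exact disjoint_compl_right
  sup_parts := by
    rw [sup_insert, sup_singleton]
    exact sup_compl_eq_top
  bot_notMem := by
    rw [mem_insert, mem_singleton, not_or]
    exact ⟨(singleton_ne_empty j).symm, (compl_ne hd j).symm⟩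

lemma part_mem {d : ℕ} (hd : 2 ≤ d) (j : Fin d) : part hd j ∈ RS d := ⟨j, rfl⟩

section conv

open Pool.Agent.V11186.SliceMain (Indep)

variable {d : ℕ} {K : Type} [Field K] {Q : Fin d → Type}

/-- The product of a function of one coordinate and one of the others is of the form required. -/
lemma prod_form (hd : 2 ≤ d) [∀ j, Nonempty (Q j)] (j : Fin d) (u : Q j → K)
    {f : (∀ j, Q j) → K} (hf : Indep j f) :
    ∃ P ∈ RS d, ∃ a : ∀ I : Finset (Fin d), (∀ β : {γ // γ ∈ I}, Q β.1) → K,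
      ∀ x : (∀ α, Q α), u (x j) * f x = ∏ I ∈ P.parts, a I (fun β => x β.1) := by
  classical
  let q₀ : ∀ j, Q j := fun j => Classical.arbitrary (Q j)
  refine ⟨part hd j, part_mem hd j, fun I y =>
    if h : I = {j} then u (y ⟨j, by rw [h]; exact mem_singleton_self j⟩)
    else f (fun γ => if h : γ ∈ I then y ⟨γ, h⟩ else q₀ γ), fun x => ?_⟩
  change _ = ∏ I ∈ ({{j}, {j}ᶜ} : Finset (Finset (Fin d))), _
  rw [prod_pair (single_ne_compl j)]
  beta_reduce
  rw [dif_pos rfl, dif_neg (single_ne_compl j).symm]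
  congr 1
  have : (fun γ => if h : γ ∈ ({j}ᶜ : Finset (Fin d)) then x γ else q₀ γ) =
      Function.update x j (q₀ j) := by
    funext γ
    by_cases h : γ = j
    · subst h
      rw [Function.update_self, dif_neg]
      rw [mem_compl, not_not]
      exact mem_singleton_self _
    · rw [Function.update_of_ne h, dif_pos]
      rw [mem_compl, mem_singleton]
      exact h
  rw [this, hf]

/-- Conversely. -/
lemma form_prod [∀ j, Nonempty (Q j)] {S : (∀ j, Q j) → K}
    (h : ∃ P ∈ RS d, ∃ a : ∀ I : Finset (Fin d), (∀ β : {γ // γ ∈ I}, Q β.1) → K,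
      ∀ x : (∀ α, Q α), S x = ∏ I ∈ P.parts, a I (fun β => x β.1)) :
    ∃ (j : Fin d) (u : Q j → K) (v : (∀ j' : {j' : Fin d // j' ≠ j}, Q j'.1) → K),
      ∀ x, S x = u (x j) * v (fun j' => x j'.1) := by
  classical
  obtain ⟨P, ⟨j, hP⟩, a, ha⟩ := h
  let q₀ : ∀ j, Q j := fun j => Classical.arbitrary (Q j)
  refine ⟨j, fun q => a {j} (fun β => Function.update q₀ j q β.1),
    fun y => a {j}ᶜ (fun β => y ⟨β.1, by
      have := β.2
      rw [mem_compl, mem_singleton] at this
      exact this⟩), fun x => ?_⟩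
  rw [ha, hP, prod_pair (single_ne_compl j)]
  congr 1
  congr 1
  funext β
  obtain ⟨β, hβ⟩ := β
  rw [mem_singleton] at hβ
  subst hβ
  change x β = Function.update q₀ β (x β) β
  rw [Function.update_self]

end conv

section dec

variable {F : Type} [Field F] {d : ℕ} {n : Fin d → ℕ}

/-- From a sum of `m` products to a slice rank decomposition of length `m`. -/
lemma exists_dec {T : (∀ j, Fin (n j)) → F} {m : ℕ} (J : Fin m → Fin d)
    (u : ∀ i, Fin (n (J i)) → F)
    (v : ∀ i, (∀ j' : {j' : Fin d // j' ≠ J i}, Fin (n j'.1)) → F)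
    (h : ∀ x, T x = ∑ i, u i (x (J i)) * v i (fun j' => x j'.1)) :
    ∃ (r : Fin d → ℕ) (a : ∀ j, Fin (r j) → (Fin (n j) → F))
    (b : ∀ j, Fin (r j) → ((∀ j' : {j' : Fin d // j' ≠ j}, Fin (n j'.1)) → F)),
    IsDec T r a b ∧ ∑ j, r j = m := by
  classical
  let e : ∀ j, Fin (Fintype.card {i // J i = j}) ≃ {i // J i = j} := fun j =>
    (Fintype.equivFin _).symm
  refine ⟨fun j => Fintype.card {i // J i = j}, fun j t => (e j t).2 ▸ u (e j t).1,
    fun j t => (e j t).2 ▸ v (e j t).1, ?_, ?_⟩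
  · intro x
    rw [h x, ← (Equiv.sigmaFiberEquiv J).sum_comp, Fintype.sum_sigma]
    apply sum_congr rfl
    intro j _
    have h1 : ∀ i : {i // J i = j}, u i.1 (x (J i.1)) * v i.1 (fun j' => x j'.1) =
        (i.2 ▸ u i.1 : Fin (n j) → F) (x j) *
        (i.2 ▸ v i.1 : (∀ j' : {j' : Fin d // j' ≠ j}, Fin (n j'.1)) → F) (fun j' => x j'.1) := by
      rintro ⟨i, rfl⟩
      rfl
    rw [← (e j).sum_comp (fun i : {i // J i = j} =>
      u ((Equiv.sigmaFiberEquiv J) ⟨j, i⟩) (x (J ((Equiv.sigmaFiberEquiv J) ⟨j, i⟩))) *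
      v ((Equiv.sigmaFiberEquiv J) ⟨j, i⟩) (fun j' => x j'.1))]
    apply sum_congr rfl
    intro t _
    exact h1 (e j t)
  · rw [← Fintype.card_sigma, Fintype.card_congr (Equiv.sigmaFiberEquiv J), Fintype.card_fin]

end dec

/-- The slices in direction `j` through the box `X` span a space of bounded dimension. -/
lemma finrank_slices {F : Type} [Field F] {d : ℕ} {n : Fin d → ℕ} (hn : ∀ j, 0 < n j)
    (T : (∀ j, Fin (n j)) → F) (X : ∀ j, Finset (Fin (n j))) (N : ℕ) (hX : ∀ j, (X j).card ≤ N)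
    (j : Fin d) :
    finrank F (Submodule.span F {f : Fin (n j) → F | ∃ x : ∀ j, Fin (n j),
      (∀ j', j' ≠ j → x j' ∈ X j') ∧ f = fun z => T (Function.update x j z)}) ≤ N ^ (d - 1) := by
  classical
  let q₀ : ∀ j, Fin (n j) := fun j => ⟨0, hn j⟩
  let ext : (∀ j' : {j' : Fin d // j' ≠ j}, X j'.1) → ∀ j, Fin (n j) := fun t j' =>
    if h : j' ≠ j then (t ⟨j', h⟩).1 else q₀ j'
  let g : (∀ j' : {j' : Fin d // j' ≠ j}, X j'.1) → (Fin (n j) → F) := fun t z =>
    T (Function.update (ext t) j z)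
  have h1 : {f : Fin (n j) → F | ∃ x : ∀ j, Fin (n j),
      (∀ j', j' ≠ j → x j' ∈ X j') ∧ f = fun z => T (Function.update x j z)} ⊆ Set.range g := by
    rintro f ⟨x, hx, rfl⟩
    refine ⟨fun j' => ⟨x j'.1, hx j'.1 j'.2⟩, ?_⟩
    funext z
    change T _ = T _
    congr 1
    funext j'
    by_cases h : j' = j
    · subst h
      rw [Function.update_self, Function.update_self]
    · rw [Function.update_of_ne h, Function.update_of_ne h]
      simp only [ext, dif_pos h]
  refine (Submodule.finrank_mono (Submodule.span_mono h1)).trans ?_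
  refine (finrank_range_le_card g).trans ?_
  rw [Fintype.card_pi]
  calc ∏ j' : {j' : Fin d // j' ≠ j}, Fintype.card (X j'.1)
      ≤ ∏ _j' : {j' : Fin d // j' ≠ j}, N := by
        apply Finset.prod_le_prod' 
        intro j' _
        rw [Fintype.card_coe]
        exact hX j'.1
    _ = N ^ (d - 1) := by
        rw [prod_const, card_univ, Fintype.card_subtype_compl, Fintype.card_fin,
          Fintype.card_subtype_eq]

theorem result (d k : ℕ) (hd : 3 ≤ d) (hk : 1 ≤ k) :
    ∃ C : ℕ, 0 < C ∧ ∀ (F : Type) [Field F] (n : Fin d → ℕ), (∀ j, 0 < n j) →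
      ∀ T : (∀ j, Fin (n j)) → F, sliceRank T = k →
        ∃ A : ∀ j, Submodule F (Fin (n j) → F), (∀ j, finrank F (A j) ≤ C) ∧
          ∀ (r : Fin d → ℕ) (a : ∀ j, Fin (r j) → (Fin (n j) → F))
            (b : ∀ j, Fin (r j) → ((∀ j' : {j' : Fin d // j' ≠ j}, Fin (n j'.1)) → F)),
            IsDec T r a b → ∑ j, r j = k →
              ∀ j, Submodule.span F (Set.range (a j)) ≤ A j := by
  classical
  have hd2 : 2 ≤ d := by omega
  obtain ⟨N, hN⟩ := Pool.Agent.S07325.result d hd2 (RS d) ⟨_, part_mem hd2 ⟨0, by omega⟩⟩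
  refine ⟨N k ^ (d - 1) + 1, Nat.succ_pos _, ?_⟩
  intro F _ n hn T hrank
  have hne : ∀ j, Nonempty (Fin (n j)) := fun j => ⟨⟨0, hn j⟩⟩
  -- no shorter decomposition
  have hshort : ∀ k' < k, ¬ ∃ S : Fin k' → ((∀ α, Fin (n α)) → F),
        (∀ i, ∃ P ∈ RS d, ∃ a : ∀ I : Finset (Fin d), (∀ β : {γ // γ ∈ I}, Fin (n β.1)) → F,
            ∀ x : (∀ α, Fin (n α)), S i x = ∏ I ∈ P.parts, a I (fun β => x β.1)) ∧
        T = ∑ i, S i := by
    rintro k' hk' ⟨S, hS, hTS⟩
    choose J u v huv using fun i => form_prod (Q := fun j => Fin (n j)) (hS i)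
    have h1 : ∀ x, T x = ∑ i, u i (x (J i)) * v i (fun j' => x j'.1) := by
      intro x
      rw [hTS, Finset.sum_apply]
      exact sum_congr rfl fun i _ => huv i x
    have h2 := exists_dec J u v h1
    have h3 : sliceRank T ≤ k' := Nat.sInf_le h2
    omega
  obtain ⟨X, hXN, hX⟩ := hN k F (fun j => Fin (n j)) T hshort
  refine ⟨fun j => Submodule.span F {f : Fin (n j) → F | ∃ x : ∀ j, Fin (n j),
      (∀ j', j' ≠ j → x j' ∈ X j') ∧ f = fun z => T (Function.update x j z)}, ?_, ?_⟩
  · intro j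
    exact (finrank_slices hn T X (N k) hXN j).trans (Nat.le_succ _)
  intro r a b hdec hrk j₀
  have hXne : ∀ j, Nonempty (X j) := by
    intro j
    by_contra hcon
    apply hX 0 (by omega)
    refine ⟨fun _ => 0, fun i => i.elim0, ?_⟩
    funext y
    exact absurd ⟨y j⟩ hcon
  rw [Submodule.span_le]
  rintro _ ⟨t₀, rfl⟩
  let ι := Σ j, Fin (r j)
  let s : ι → Fin d := Sigma.fst
  let a' : ι → ∀ j, Fin (n j) → F := fun i j => if h : i.1 = j then h ▸ a i.1 i.2 else 0
  have ha' : ∀ i : ι, a' i i.1 = a i.1 i.2 := fun i => dif_pos rfl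
  let b' : ι → (∀ j, Fin (n j)) → F := fun i x => b i.1 i.2 (fun j' => x j'.1)
  have hb' : ∀ i, Pool.Agent.V11186.SliceMain.Indep (s i) (b' i) := by
    intro i x z
    change b i.1 i.2 _ = b i.1 i.2 _
    congr 1
    funext j'
    exact Function.update_of_ne j'.2 _ _
  have hT' : ∀ x, T x = ∑ i, a' i (s i) (x (s i)) * b' i x := by
    intro x
    rw [hdec x, Fintype.sum_sigma]
    apply sum_congr rfl
    intro j _
    apply sum_congr rfl
    intro t _
    change _ = a' ⟨j, t⟩ j (x j) * _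
    rw [show a' ⟨j, t⟩ j = a j t from ha' ⟨j, t⟩]
  have hcard : Fintype.card ι = k := by
    rw [Fintype.card_sigma]
    simpa using hrk
  have main := Pool.Agent.V11186.SliceMain.mem_span_slices s a' b' T X hb' hT' (by
    intro i₁ a'' b'' hb'' hdec''
    have hc : Fintype.card {i // i ≠ i₁} = k - 1 := by
      rw [Fintype.card_subtype_compl, hcard, Fintype.card_subtype_eq]
    let e : Fin (k - 1) ≃ {i // i ≠ i₁} := (Fintype.equivFinOfCardEq hc).symm
    apply hX (k - 1) (by omega)
    let co : (∀ α, {q // q ∈ X α}) → ∀ α, Fin (n α) := fun y α => (y α).1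
    refine ⟨fun t y => a'' (e t).1 (s (e t).1) ((y (s (e t).1)).1) * b'' (e t).1 (co y), ?_, ?_⟩
    · intro t
      have hind : Pool.Agent.V11186.SliceMain.Indep (Q := fun α => {q // q ∈ X α})
          (s (e t).1) (fun y => b'' (e t).1 (co y)) := by
        intro y z
        have h1 : co (Function.update y (s (e t).1) z) =
            Function.update (co y) (s (e t).1) z.1 := by
          funext α
          by_cases h : α = s (e t).1
          · subst h
            simp only [co, Function.update_self]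
          · simp only [co, Function.update_of_ne h]
        change b'' (e t).1 (co _) = b'' (e t).1 (co y)
        rw [h1]
        exact hb'' _ _ _
      exact prod_form hd2 (s (e t).1) (fun q => a'' (e t).1 (s (e t).1) q.1) hind
    · funext y
      rw [Finset.sum_apply]
      have h1 := hdec'' (co y) (fun α => (y α).2)
      change T (co y) = _
      rw [h1]
      have h2 : ∑ i ∈ univ.erase i₁, a'' i (s i) (co y (s i)) * b'' i (co y) =
          ∑ i : {i // i ≠ i₁}, a'' i.1 (s i.1) (co y (s i.1)) * b'' i.1 (co y) := by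
        rw [Finset.sum_subtype (p := fun i => i ≠ i₁)]
        intro i
        rw [mem_erase]
        simp
      rw [h2, ← e.sum_comp]) j₀ ⟨j₀, t₀⟩ rfl
    (Submodule.span F {f : Fin (n j₀) → F | ∃ x : ∀ j, Fin (n j),
      (∀ j', j' ≠ j₀ → x j' ∈ X j') ∧ f = fun z => T (Function.update x j₀ z)})
    (by
      intro x hx
      exact Submodule.subset_span ⟨x, hx, rfl⟩)
  rw [show a' ⟨j₀, t₀⟩ j₀ = a j₀ t₀ from ha' ⟨j₀, t₀⟩] at main
  exact main

end Pool.Agent.Results.MP_f1e34e_co.SliceBound
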